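import Pool.Agent.W737.SB.Defs

set_option autoImplicit false

open Metric Set

namespace Pool.Agent.W230.SB

open Pool.Agent.W737.SB

theorem qf_unique {n : ℕ} {b b' : V n} {A A' : V n →L[ℂ] V n} (h : ∀ x, qf b A x = qf b' A' x) :
    b = b' ∧ A = A' := by
  have h0 := h 0
  unfold qf at h0
  simp only [map_zero, add_zero, smul_zero] at h0
  refine ⟨h0, ?_⟩
  ext1 x
  have hx := h x
  unfold qf at hx
  rw [h0] at hx
  have h1 : b' + A x = b' + A' x := add_right_cancel hx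
  exact add_left_cancel h1

/-- the restriction to the orthogonal complement of `b` -/
theorem small_orth {n : ℕ} {b : V n} {A : V n →L[ℂ] V n} {d m : ℝ} (hA : Sym A)
    (h3 : ∀ x, ‖A (A x) - ((2 * d : ℝ) : ℂ) • A x + ((d ^ 2 : ℝ) : ℂ) • x - (inner ℂ b x : ℂ) • b‖
      ≤ m * ‖x‖) (u : V n) (hu : (inner ℂ b u : ℂ) = 0) :
    ‖A u - ((d : ℝ) : ℂ) • u‖ ^ 2 ≤ m * ‖u‖ ^ 2 := by
  have h := h3 u
  rw [hu, zero_smul, sub_zero] at h
  set w := A (A u) - ((2 * d : ℝ) : ℂ) • A u + ((d ^ 2 : ℝ) : ℂ) • u with hw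
  have e1 : (inner ℂ (A u - ((d : ℝ) : ℂ) • u) (A u - ((d : ℝ) : ℂ) • u) : ℂ) = inner ℂ u w := by
    rw [hw, inner_sub_left, hA u, inner_smul_left, inner_sub_right, inner_add_right,
      inner_sub_right, inner_smul_right, inner_smul_right, map_sub, map_smul, inner_sub_right,
      inner_smul_right, inner_smul_right, Complex.conj_ofReal]
    push_cast
    ring
  have e2 : ‖A u - ((d : ℝ) : ℂ) • u‖ ^ 2 = (inner ℂ u w : ℂ).re := by
    rw [← e1]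
    exact (inner_self_eq_norm_sq (𝕜 := ℂ) _).symm
  rw [e2]
  calc (inner ℂ u w : ℂ).re ≤ ‖(inner ℂ u w : ℂ)‖ := Complex.re_le_norm _
    _ ≤ ‖u‖ * ‖w‖ := norm_inner_le_norm _ _
    _ ≤ ‖u‖ * (m * ‖u‖) := mul_le_mul_of_nonneg_left h (norm_nonneg _)
    _ = m * ‖u‖ ^ 2 := by ring

theorem re_inner_le {n : ℕ} (x y : V n) : |(inner ℂ x y : ℂ).re| ≤ ‖x‖ * ‖y‖ :=
  (Complex.abs_re_le_norm _).trans (norm_inner_le_norm _ _)

/-- lower bound of the form -/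
theorem form_lower {n : ℕ} {b : V n} {A : V n →L[ℂ] V n} {d m s t : ℝ} (hA : Sym A)
    (hb : 0 < ‖b‖) (hd : 0 < d) (hs : 0 ≤ s) (ht : 0 ≤ t) (hm : m ≤ s ^ 2) (hmt : m ≤ t * ‖b‖)
    (h2 : ‖A b - ((2 * d : ℝ) : ℂ) • b‖ ≤ m)
    (h3 : ∀ x, ‖A (A x) - ((2 * d : ℝ) : ℂ) • A x + ((d ^ 2 : ℝ) : ℂ) • x - (inner ℂ b x : ℂ) • b‖
      ≤ m * ‖x‖) (u : V n) :
    (d - 2 * (s + t)) * ‖u‖ ^ 2 ≤ (inner ℂ u (A u) : ℂ).re := by
  set α : ℂ := (inner ℂ b u : ℂ) / ((‖b‖ ^ 2 : ℝ) : ℂ) with hα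
  set v : V n := u - α • b with hv
  set e : V n := A b - ((2 * d : ℝ) : ℂ) • b with he
  have hb2 : ((‖b‖ ^ 2 : ℝ) : ℂ) ≠ 0 := by
    have : (‖b‖ ^ 2 : ℝ) ≠ 0 := by positivity
    exact_mod_cast this
  have hbb : (inner ℂ b b : ℂ) = ((‖b‖ ^ 2 : ℝ) : ℂ) := by
    rw [inner_self_eq_norm_sq_to_K]
    push_cast
    rfl
  have hbv : (inner ℂ b v : ℂ) = 0 := by
    rw [hv, inner_sub_right, inner_smul_right, hbb, hα, div_mul_cancel₀ _ hb2, sub_self]
  have hvb : (inner ℂ v b : ℂ) = 0 := by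
    rw [← inner_conj_symm, hbv, map_zero]
  have hu : u = α • b + v := by rw [hv]; abel
  set a : ℝ := ‖α‖ * ‖b‖ with ha
  have ha0 : 0 ≤ a := by positivity
  have hnu : ‖u‖ ^ 2 = a ^ 2 + ‖v‖ ^ 2 := by
    have h1 : (inner ℂ (α • b) v : ℂ) = 0 := by rw [inner_smul_left, hbv, mul_zero]
    have h4 := norm_add_sq (𝕜 := ℂ) (α • b) v
    rw [h1, ← hu, norm_smul] at h4
    simp only [map_zero, mul_zero, add_zero] at h4
    exact h4
  -- the pieces
  have hSv : ‖A v - ((d : ℝ) : ℂ) • v‖ ≤ s * ‖v‖ := by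
    have h1 := small_orth hA h3 v hbv
    have h4 : ‖A v - ((d : ℝ) : ℂ) • v‖ ^ 2 ≤ (s * ‖v‖) ^ 2 := by
      rw [mul_pow]
      exact h1.trans (mul_le_mul_of_nonneg_right hm (sq_nonneg _))
    exact (sq_le_sq₀ (norm_nonneg _) (by positivity)).1 h4
  have hAb : A b = e + ((2 * d : ℝ) : ℂ) • b := by rw [he]; abel
  have he' : ‖e‖ ≤ t * ‖b‖ := h2.trans hmt
  have expand : (inner ℂ u (A u) : ℂ).re = d * ‖u‖ ^ 2 + d * a ^ 2 +
      ‖α‖ ^ 2 * (inner ℂ b e : ℂ).re + (inner ℂ (α • e) v : ℂ).re + (inner ℂ v (α • e) : ℂ).re +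
      (inner ℂ v (A v - ((d : ℝ) : ℂ) • v) : ℂ).re := by
    have h1 : (inner ℂ u (A u) : ℂ) = inner ℂ (α • b) (α • A b) + inner ℂ (A (α • b)) v +
        inner ℂ v (α • A b) + inner ℂ v (A v) := by
      rw [hA (α • b) v]
      conv_lhs => rw [hu]
      rw [map_add, map_smul, inner_add_left, inner_add_right, inner_add_right]
      ring
    have h4 : (inner ℂ (α • b) (α • A b) : ℂ) = ((‖α‖ ^ 2 : ℝ) : ℂ) * inner ℂ b e +
        ((2 * d * a ^ 2 : ℝ) : ℂ) := by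
      rw [inner_smul_left, inner_smul_right, hAb, inner_add_right, inner_smul_right, hbb, ha]
      have h5 : (starRingEnd ℂ) α * α = ((‖α‖ ^ 2 : ℝ) : ℂ) := by
        rw [mul_comm, Complex.mul_conj, Complex.normSq_eq_norm_sq]
      rw [← mul_assoc, h5]
      push_cast
      ring
    have h6 : (inner ℂ (A (α • b)) v : ℂ) = inner ℂ (α • e) v := by
      rw [map_smul, hAb, smul_add, inner_add_left, smul_smul, inner_smul_left b v, hbv,
        mul_zero, add_zero]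
    have h7 : (inner ℂ v (α • A b) : ℂ) = inner ℂ v (α • e) := by
      rw [hAb, smul_add, inner_add_right, smul_smul, inner_smul_right v b, hvb, mul_zero,
        add_zero]
    have h8 : (inner ℂ v (A v) : ℂ) = inner ℂ v (A v - ((d : ℝ) : ℂ) • v) +
        ((d * ‖v‖ ^ 2 : ℝ) : ℂ) := by
      rw [inner_sub_right, inner_smul_right, inner_self_eq_norm_sq_to_K]
      push_cast
      have : ((‖v‖ : ℝ) : ℂ) = (RCLike.ofReal ‖v‖ : ℂ) := rfl
      rw [this]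
      ring
    rw [h1, h4, h6, h7, h8]
    simp only [Complex.add_re, Complex.re_ofReal_mul, Complex.ofReal_re]
    rw [hnu]
    ring
  have b1 : -(t * a ^ 2) ≤ ‖α‖ ^ 2 * (inner ℂ b e : ℂ).re := by
    have h1 := (abs_le.1 (re_inner_le b e)).1
    have h4 : ‖b‖ * ‖e‖ ≤ ‖b‖ * (t * ‖b‖) := mul_le_mul_of_nonneg_left he' hb.le
    have h5 : ‖α‖ ^ 2 * (-(‖b‖ * (t * ‖b‖))) ≤ ‖α‖ ^ 2 * (inner ℂ b e : ℂ).re :=
      mul_le_mul_of_nonneg_left (by linarith) (sq_nonneg _)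
    have h6 : ‖α‖ ^ 2 * (-(‖b‖ * (t * ‖b‖))) = -(t * a ^ 2) := by rw [ha]; ring
    linarith
  have hαe : ‖α • e‖ ≤ t * a := by
    rw [norm_smul]
    have := mul_le_mul_of_nonneg_left he' (norm_nonneg α)
    calc ‖α‖ * ‖e‖ ≤ ‖α‖ * (t * ‖b‖) := this
      _ = t * a := by rw [ha]; ring
  have b2 : -(t * a * ‖v‖) ≤ (inner ℂ (α • e) v : ℂ).re := by
    have h1 := (abs_le.1 (re_inner_le (α • e) v)).1
    have := mul_le_mul_of_nonneg_right hαe (norm_nonneg v)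
    linarith
  have b3 : -(t * a * ‖v‖) ≤ (inner ℂ v (α • e) : ℂ).re := by
    have h1 := (abs_le.1 (re_inner_le v (α • e))).1
    have := mul_le_mul_of_nonneg_left hαe (norm_nonneg v)
    linarith
  have b4 : -(s * ‖v‖ ^ 2) ≤ (inner ℂ v (A v - ((d : ℝ) : ℂ) • v) : ℂ).re := by
    have h1 := (abs_le.1 (re_inner_le v (A v - ((d : ℝ) : ℂ) • v))).1
    have := mul_le_mul_of_nonneg_left hSv (norm_nonneg v)
    linarith
  rw [expand]
  have b5 : 2 * (a * ‖v‖) ≤ a ^ 2 + ‖v‖ ^ 2 := by linarith [sq_nonneg (a - ‖v‖)]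
  have b6 := mul_le_mul_of_nonneg_left b5 ht
  have b7 : 0 ≤ d * a ^ 2 := by positivity
  have b8 : 0 ≤ s * a ^ 2 := by positivity
  have b9 : 0 ≤ s * ‖v‖ ^ 2 := by positivity
  have b10 : 0 ≤ t * ‖v‖ ^ 2 := by positivity
  rw [hnu]
  linarith

theorem aux1 {p1 p2 p3 p4 q ε : ℝ} (h1 : 0 ≤ p1) (h2 : 0 ≤ p2) (h3 : 0 ≤ p3) (h4 : 0 ≤ p4)
    (hq : 0 ≤ q) (hε : 0 ≤ ε) :
    ε + p1 * ε + p2 * q + p3 * ε ≤ (1 + p1 + p2 + p3 + p4) * (q + ε) := by
  have e : (1 + p1 + p2 + p3 + p4) * (q + ε) = ε + p1 * ε + p2 * q + p3 * ε +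
      (q + p1 * q + p2 * ε + p3 * q + p4 * q + p4 * ε) := by ring
  have : 0 ≤ q + p1 * q + p2 * ε + p3 * q + p4 * q + p4 * ε := by positivity
  linarith

theorem aux2 {p1 p2 p3 p4 s ε : ℝ} (h1 : 0 ≤ p1) (h2 : 0 ≤ p2) (h3 : 0 ≤ p3) (h4 : 0 ≤ p4)
    (hs : 0 ≤ s) (hε : 0 ≤ ε) :
    p4 * s + ε ≤ (1 + p1 + p2 + p3 + p4) * (s + ε) := by
  have e : (1 + p1 + p2 + p3 + p4) * (s + ε) = p4 * s + ε +
      (s + p1 * s + p2 * s + p3 * s + (p1 + p2 + p3 + p4) * ε) := by ring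
  have : 0 ≤ s + p1 * s + p2 * s + p3 * s + (p1 + p2 + p3 + p4) * ε := by positivity
  linarith

theorem t_rat (h : S_ent) : S_rat := by
  intro n c₁ C₁ hc₁ hC₁
  set C : ℝ := 1 + 4 * C₁ / c₁ + 2 / c₁ + 4 * (C₁ + 1) / c₁ + 2 * (1 + 1 / c₁) with hC
  have hCpos : 0 < C := by positivity
  refine ⟨C, min (min (3 * c₁ ^ 2 / 4) (c₁ / 2)) 1, c₁ / 2, hCpos, by positivity, by positivity,
    ?_⟩
  intro y q ε hy hq0 hq hε0 hε M b b₀ A A₀ hM hA hfld hbb hAA hMM hb hMn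
  obtain ⟨b', A', d, hA', hfld', k1, k2, k3, k4, k5, -⟩ := h.1 n M hM
  obtain ⟨hb'', hA''⟩ := qf_unique (b := b) (b' := b') (A := A) (A' := A')
    (fun x => by rw [← hfld, ← hfld'])
  subst hb'' hA''
  have hq1 : q ≤ 3 * c₁ ^ 2 / 4 := hq.trans ((min_le_left _ _).trans (min_le_left _ _))
  have hq3 : q ≤ 1 := hq.trans (min_le_right _ _)
  have hε2 : ε ≤ c₁ / 2 := hε.trans ((min_le_left _ _).trans (min_le_right _ _))
  set K : ℝ := 1 / y with hK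
  have hKpos : 0 < K := by positivity
  have e1 : ε / y = ε * K := by rw [hK]; ring
  have e2 : q / y ^ 2 = q * K ^ 2 := by rw [hK]; field_simp
  have e3 : c₁ / y = c₁ * K := by rw [hK]; ring
  have e4 : C₁ / y = C₁ * K := by rw [hK]; ring
  rw [e1] at hbb hAA
  rw [e2] at hMM
  rw [e3] at hb
  rw [e4] at hMn
  have e5 : c₁ / 2 / y = c₁ / 2 * K := by rw [hK]; ring
  rw [e5]
  have hbpos : 0 < ‖b‖ := lt_of_lt_of_le (by positivity) hb
  -- size of d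
  have hd2 := abs_le.1 (k3.trans hMM)
  have hdlow : (c₁ / 2 * K) ^ 2 ≤ d ^ 2 := by
    have h1 : (c₁ * K) ^ 2 ≤ ‖b‖ ^ 2 := pow_le_pow_left₀ (by positivity) hb 2
    have h2 : q * K ^ 2 ≤ 3 * c₁ ^ 2 / 4 * K ^ 2 := mul_le_mul_of_nonneg_right hq1 (sq_nonneg _)
    linarith
  have hdlow' : c₁ / 2 * K ≤ |d| := by
    rw [← abs_of_pos (show 0 < c₁ / 2 * K by positivity)]
    exact sq_le_sq.1 hdlow
  have hbup : ‖b‖ ≤ C₁ * K := k1.trans hMn
  have hdup : |d| ≤ (C₁ + 1) * K := by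
    rw [← abs_of_pos (show 0 < (C₁ + 1) * K by positivity)]
    apply sq_le_sq.1
    have h1 : ‖b‖ ^ 2 ≤ (C₁ * K) ^ 2 := pow_le_pow_left₀ (norm_nonneg _) hbup 2
    have h2 : q * K ^ 2 ≤ 1 * K ^ 2 := mul_le_mul_of_nonneg_right hq3 (sq_nonneg _)
    linarith [mul_pos hC₁ (pow_pos hKpos 2)]
  have hb0low : c₁ / 2 * K ≤ ‖b₀‖ := by
    have h1 : ‖b‖ ≤ ‖b₀‖ + ‖b₀ - b‖ := by
      have := norm_sub_le b₀ (b₀ - b)
      rwa [sub_sub_cancel] at this
    have h2 : ε * K ≤ c₁ / 2 * K := mul_le_mul_of_nonneg_right hε2 hKpos.le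
    linarith
  have hAup : ‖A‖ ≤ 2 * C₁ * K := by
    refine k2.trans ?_
    linarith
  refine ⟨d, hdlow', hb0low, ?_, ?_⟩
  · -- the ratio
    have hKb : K ≤ 2 / c₁ * ‖b₀‖ := by
      have := mul_le_mul_of_nonneg_left hb0low (show 0 ≤ 2 / c₁ by positivity)
      have e : 2 / c₁ * (c₁ / 2 * K) = K := by field_simp
      rw [e] at this
      exact this
    have hvec : ‖A₀ b₀ - ((2 * d : ℝ) : ℂ) • b₀‖ ≤ C * (q + ε) * K * ‖b₀‖ := by
      have h1 : A₀ b₀ - ((2 * d : ℝ) : ℂ) • b₀ = (A₀ - A) b₀ + A (b₀ - b) +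
          (A b - ((2 * d : ℝ) : ℂ) • b) - ((2 * d : ℝ) : ℂ) • (b₀ - b) := by
        rw [sub_apply, map_sub, smul_sub]
        abel
      have n1 : ‖(A₀ - A) b₀‖ ≤ ε * K * ‖b₀‖ :=
        ((A₀ - A).le_opNorm b₀).trans (mul_le_mul_of_nonneg_right hAA (norm_nonneg _))
      have n2 : ‖A (b₀ - b)‖ ≤ 2 * C₁ * K * (ε * K) :=
        (A.le_opNorm _).trans (mul_le_mul hAup hbb (norm_nonneg _) (by positivity))
      have n3 : ‖A b - ((2 * d : ℝ) : ℂ) • b‖ ≤ q * K ^ 2 := k4.trans hMM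
      have n4 : ‖((2 * d : ℝ) : ℂ) • (b₀ - b)‖ ≤ 2 * ((C₁ + 1) * K) * (ε * K) := by
        rw [norm_smul, Complex.norm_real, Real.norm_eq_abs, abs_mul, abs_two]
        exact mul_le_mul (mul_le_mul_of_nonneg_left hdup (by norm_num)) hbb (norm_nonneg _)
          (by positivity)
      have n5 : ‖A₀ b₀ - ((2 * d : ℝ) : ℂ) • b₀‖ ≤ ε * K * ‖b₀‖ + 2 * C₁ * K * (ε * K) +
          q * K ^ 2 + 2 * ((C₁ + 1) * K) * (ε * K) := by
        rw [h1]
        refine (norm_sub_le _ _).trans (add_le_add ((norm_add_le _ _).trans (add_le_add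
          ((norm_add_le _ _).trans (add_le_add n1 n2)) n3)) n4)
      refine n5.trans ?_
      have h5 : K ^ 2 ≤ K * (2 / c₁ * ‖b₀‖) := by
        rw [sq]
        exact mul_le_mul_of_nonneg_left hKb hKpos.le
      have h6 : (2 * C₁ * ε + q + 2 * (C₁ + 1) * ε) * K ^ 2 ≤
          (2 * C₁ * ε + q + 2 * (C₁ + 1) * ε) * (K * (2 / c₁ * ‖b₀‖)) :=
        mul_le_mul_of_nonneg_left h5 (by positivity)
      have h7 : ε * K * ‖b₀‖ + 2 * C₁ * K * (ε * K) + q * K ^ 2 +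
          2 * ((C₁ + 1) * K) * (ε * K) = ε * K * ‖b₀‖ +
          (2 * C₁ * ε + q + 2 * (C₁ + 1) * ε) * K ^ 2 := by ring
      have h8 : ε * K * ‖b₀‖ + (2 * C₁ * ε + q + 2 * (C₁ + 1) * ε) * (K * (2 / c₁ * ‖b₀‖)) =
          (ε + (4 * C₁ / c₁) * ε + (2 / c₁) * q + (4 * (C₁ + 1) / c₁) * ε) * (K * ‖b₀‖) := by
        field_simp
        ring
      have h9 : ε + (4 * C₁ / c₁) * ε + (2 / c₁) * q + (4 * (C₁ + 1) / c₁) * ε ≤
          C * (q + ε) := by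
        rw [hC]
        exact aux1 (by positivity) (by positivity) (by positivity) (by positivity) hq0 hε0
      have h10 := mul_le_mul_of_nonneg_right h9 (show 0 ≤ K * ‖b₀‖ by positivity)
      rw [h7]
      linarith
    have h1 : (inner ℂ b₀ (A₀ b₀) : ℂ).re - 2 * d * ‖b₀‖ ^ 2 =
        (inner ℂ b₀ (A₀ b₀ - ((2 * d : ℝ) : ℂ) • b₀) : ℂ).re := by
      have e : (inner ℂ b₀ b₀ : ℂ) = ((‖b₀‖ ^ 2 : ℝ) : ℂ) := by
        rw [inner_self_eq_norm_sq_to_K]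
        push_cast
        rfl
      rw [inner_sub_right, inner_smul_right, e, ← Complex.ofReal_mul, Complex.sub_re,
        Complex.ofReal_re]
    rw [h1]
    refine (re_inner_le _ _).trans ?_
    have h2 := mul_le_mul_of_nonneg_left hvec (norm_nonneg b₀)
    refine h2.trans (le_of_eq ?_)
    rw [hK]
    ring
  · intro hd u
    set s : ℝ := Real.sqrt q * K with hs
    set t : ℝ := q / c₁ * K with ht
    have hs0 : 0 ≤ s := by positivity
    have ht0 : 0 ≤ t := by positivity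
    have hm : ‖M.comp M‖ ≤ s ^ 2 := by
      rw [hs, mul_pow, Real.sq_sqrt hq0]
      exact hMM
    have hmt : ‖M.comp M‖ ≤ t * ‖b‖ := by
      refine hMM.trans ?_
      have h1 : t * (c₁ * K) ≤ t * ‖b‖ := mul_le_mul_of_nonneg_left hb ht0
      have h2 : t * (c₁ * K) = q * K ^ 2 := by rw [ht]; field_simp
      linarith
    have hlow := form_lower hA hbpos hd hs0 ht0 hm hmt k4 k5 u
    have hdiff : |(inner ℂ u ((A₀ - A) u) : ℂ).re| ≤ ε * K * ‖u‖ ^ 2 := by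
      refine (re_inner_le _ _).trans ?_
      have := ((A₀ - A).le_opNorm u).trans (mul_le_mul_of_nonneg_right hAA (norm_nonneg u))
      have h2 := mul_le_mul_of_nonneg_left this (norm_nonneg u)
      refine h2.trans (le_of_eq (by ring))
    have h1 : (inner ℂ u (A₀ u) : ℂ).re = (inner ℂ u (A u) : ℂ).re +
        (inner ℂ u ((A₀ - A) u) : ℂ).re := by
      rw [sub_apply, inner_sub_right, Complex.sub_re]
      ring
    rw [h1]
    have h2 := (abs_le.1 hdiff).1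
    have hqs : q ≤ Real.sqrt q := by
      have h3 := Real.sqrt_le_one.2 hq3
      calc q = Real.sqrt q * Real.sqrt q := (Real.mul_self_sqrt hq0).symm
        _ ≤ Real.sqrt q * 1 := mul_le_mul_of_nonneg_left h3 (Real.sqrt_nonneg q)
        _ = Real.sqrt q := mul_one _
    have h6 : 2 * (s + t) + ε * K ≤ C * (Real.sqrt q + ε) / y := by
      have h7 : t ≤ Real.sqrt q / c₁ * K := by
        rw [ht]
        exact mul_le_mul_of_nonneg_right (div_le_div_of_nonneg_right hqs hc₁.le) hKpos.le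
      have h8 : 2 * (s + Real.sqrt q / c₁ * K) + ε * K ≤ C * (Real.sqrt q + ε) / y := by
        have e : C * (Real.sqrt q + ε) / y = C * (Real.sqrt q + ε) * K := by rw [hK]; ring
        rw [e, hs]
        have e' : 2 * (Real.sqrt q * K + Real.sqrt q / c₁ * K) + ε * K =
            (2 * (1 + 1 / c₁) * Real.sqrt q + ε) * K := by ring
        rw [e']
        apply mul_le_mul_of_nonneg_right _ hKpos.le
        rw [hC]
        exact aux2 (by positivity) (by positivity) (by positivity) (by positivity)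
          (Real.sqrt_nonneg q) hε0
      linarith
    have h9 := mul_le_mul_of_nonneg_right h6 (sq_nonneg ‖u‖)
    linarith

end Pool.Agent.W230.SB
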